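import Mathlib

/-!
# Closed sets with few infinite columns

Points of `2^ω` are seen as subsets of `ω × ω` (by the pairing function); `Irr x` is the set of
the infinite columns of `x`.
-/

open Set

namespace Pool.Agent.Q302.TF

/-- the column of a position -/
def col (t : ℕ) : ℕ := (Nat.unpair t).1

/-- The set of the infinite columns of `x`. -/
def Irr (x : ℕ → Bool) : Set ℕ := {j | ∀ M : ℕ, ∃ t, M ≤ t ∧ col t = j ∧ x t = true}

/-- `x` and `y` agree below `N`. -/
def agr (N : ℕ) (x y : ℕ → Bool) : Prop := ∀ t, t < N → x t = y t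

/-- `x` and `y` have the same column `j`. -/
def same (j : ℕ) (x y : ℕ → Bool) : Prop := ∀ t, col t = j → x t = y t

/-- `x` has a one in the column `j`, at a position `≥ N`. -/
def one (j N : ℕ) (x : ℕ → Bool) : Prop := ∃ t, N ≤ t ∧ col t = j ∧ x t = true

lemma agr.refl (N : ℕ) (x : ℕ → Bool) : agr N x x := fun _ _ => rfl
lemma agr.symm {N : ℕ} {x y : ℕ → Bool} (h : agr N x y) : agr N y x := fun t ht => (h t ht).symm
lemma agr.trans {N : ℕ} {x y z : ℕ → Bool} (h : agr N x y) (h' : agr N y z) : agr N x z :=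
  fun t ht => (h t ht).trans (h' t ht)
lemma agr.mono {N M : ℕ} {x y : ℕ → Bool} (h : agr N x y) (hM : M ≤ N) : agr M x y :=
  fun t ht => h t (lt_of_lt_of_le ht hM)

lemma same.symm {j : ℕ} {x y : ℕ → Bool} (h : same j x y) : same j y x :=
  fun t ht => (h t ht).symm
lemma same.trans {j : ℕ} {x y z : ℕ → Bool} (h : same j x y) (h' : same j y z) : same j x z :=
  fun t ht => (h t ht).trans (h' t ht)

lemma mem_Irr {x : ℕ → Bool} {j : ℕ} : j ∈ Irr x ↔ ∀ M, one j M x := Iff.rfl

lemma same.irr {j : ℕ} {x y : ℕ → Bool} (h : same j x y) : j ∈ Irr x ↔ j ∈ Irr y := by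
  constructor
  · intro hx M
    obtain ⟨t, h1, h2, h3⟩ := hx M
    exact ⟨t, h1, h2, by rw [← h t h2]; exact h3⟩
  · intro hx M
    obtain ⟨t, h1, h2, h3⟩ := hx M
    exact ⟨t, h1, h2, by rw [h t h2]; exact h3⟩

/-- For a closed set, membership is tested by approximations. -/
lemma mem_of_approx {K : Set (ℕ → Bool)} (hK : IsClosed K) {x : ℕ → Bool}
    (h : ∀ N, ∃ y ∈ K, agr N y x) : x ∈ K := by
  choose y hy hyx using h
  have hlim : Filter.Tendsto y Filter.atTop (nhds x) := by
    rw [tendsto_pi_nhds]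
    intro t
    apply tendsto_nhds_of_eventually_eq
    filter_upwards [Filter.eventually_ge_atTop (t + 1)] with N hN
    exact hyx N t (by omega)
  exact hK.mem_of_tendsto hlim (Filter.Eventually.of_forall hy)

/-- A set which contains all points which it approximates is closed. -/
lemma closed_of_approx {K : Set (ℕ → Bool)}
    (h : ∀ x, (∀ N, ∃ y ∈ K, agr N y x) → x ∈ K) : IsClosed K := by
  rw [← closure_subset_iff_isClosed]
  intro x hx
  apply h
  intro N
  have hopen : IsOpen {y : ℕ → Bool | agr N y x} := by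
    have : {y : ℕ → Bool | agr N y x} = ⋂ t ∈ Finset.range N, {y | y t = x t} := by
      ext y; simp [agr]
    rw [this]
    apply isOpen_biInter_finset
    intro t _
    exact (isOpen_discrete ({x t} : Set Bool)).preimage
      (continuous_apply t : Continuous fun y : ℕ → Bool => y t)
  obtain ⟨y, hy1, hy2⟩ := mem_closure_iff.1 hx _ hopen (agr.refl N x)
  exact ⟨y, hy2, hy1⟩

/-- The limit of a sequence of points with growing agreement. -/
lemma exists_lim (u : ℕ → ℕ → Bool) (N : ℕ → ℕ) (hN : StrictMono N)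
    (h : ∀ k, agr (N k) (u (k + 1)) (u k)) : ∃ x : ℕ → Bool, ∀ k, agr (N k) x (u k) := by
  have key : ∀ k l, agr (N k) (u (k + l)) (u k) := by
    intro k l
    induction l with
    | zero => exact agr.refl _ _
    | succ l ih => exact ((h (k + l)).mono (hN.monotone (Nat.le_add_right k l))).trans ih
  refine ⟨fun t => u (t + 1) t, fun k t ht => ?_⟩
  have h1 : t < N (t + 1) := lt_of_lt_of_le (Nat.lt_succ_self t) (hN.id_le (t + 1))
  rcases le_total k (t + 1) with hk | hk
  · obtain ⟨l, hl⟩ := Nat.exists_eq_add_of_le hk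
    simp only [hl]
    exact key k l t ht
  · obtain ⟨l, hl⟩ := Nat.exists_eq_add_of_le hk
    have := key (t + 1) l t h1
    rw [← hl] at this
    exact this.symm

/-- The invariant: `K` is a closed set; all columns outside `B` are finite in the points of lower
type, and all columns of `B` are infinite in the other points; near every point of lower type there
are points of every type `m ≤ |B|`, with prescribed changes of the columns outside `B` and
`Z`. -/
structure Inv (K : Set (ℕ → Bool)) (B Z : Finset ℕ) : Prop where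
  closed : IsClosed K
  ne : K.Nonempty
  comp : ∀ x ∈ K, Irr x ⊆ B ∨ (B : Set ℕ) ⊆ Irr x
  dense : ∀ x ∈ K, ∀ N, ∃ e ∈ K, agr N e x ∧ Irr e ⊆ B
  free : ∀ d ∈ K, Irr d ⊆ B → ∀ (N : ℕ) (F : Finset ℕ), Disjoint F B → Disjoint F Z →
    ∀ m ≤ B.card, ∃ e ∈ K, Irr e ⊆ B ∧ (Irr e).ncard = m ∧ agr N e d ∧
      (∀ j < N, j ∉ F → j ∉ B → same j e d) ∧ (∀ j, j ∈ F ∨ j ∈ B → one j N e)

/-- `x` and `y` are `N`-close relative to `B`. -/
def close (B : Finset ℕ) (N : ℕ) (x y : ℕ → Bool) : Prop :=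
  agr N x y ∧ ∀ j < N, j ∉ B → same j x y

lemma close.refl (B : Finset ℕ) (N : ℕ) (x : ℕ → Bool) : close B N x x :=
  ⟨agr.refl _ _, fun _ _ _ _ _ => rfl⟩
lemma close.symm {B : Finset ℕ} {N : ℕ} {x y : ℕ → Bool} (h : close B N x y) : close B N y x :=
  ⟨h.1.symm, fun j hj hB => (h.2 j hj hB).symm⟩
lemma close.trans {B : Finset ℕ} {N : ℕ} {x y z : ℕ → Bool} (h : close B N x y)
    (h' : close B N y z) : close B N x z :=
  ⟨h.1.trans h'.1, fun j hj hB => (h.2 j hj hB).trans (h'.2 j hj hB)⟩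
lemma close.mono {B : Finset ℕ} {N M : ℕ} {x y : ℕ → Bool} (h : close B N x y) (hM : M ≤ N) :
    close B M x y :=
  ⟨h.1.mono hM, fun j hj hB => h.2 j (lt_of_lt_of_le hj hM) hB⟩

/-- If finitely many columns have ones beyond `N`, then they have such ones below some bound. -/
lemma exists_bound (S : Finset ℕ) (N : ℕ) (x : ℕ → Bool) (h : ∀ j ∈ S, one j N x) :
    ∃ M, N < M ∧ ∀ j ∈ S, ∃ t, N ≤ t ∧ t < M ∧ col t = j ∧ x t = true := by
  classical
  induction S using Finset.induction_on with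
  | empty => exact ⟨N + 1, by omega, by simp⟩
  | insert a S ha ih =>
    obtain ⟨M, hM, hS⟩ := ih fun j hj => h j (Finset.mem_insert_of_mem hj)
    obtain ⟨t, h1, h2, h3⟩ := h a (Finset.mem_insert_self a S)
    refine ⟨max M (t + 1), lt_of_lt_of_le hM (le_max_left _ _), ?_⟩
    intro j hj
    rcases Finset.mem_insert.1 hj with rfl | hj
    · exact ⟨t, h1, by omega, h2, h3⟩
    · obtain ⟨t', h1', h2', h3'⟩ := hS j hj
      exact ⟨t', h1', by omega, h3'⟩

/-- **Baire category.** For every colouring of the points `x` of the closed set `K` with `Irr x = B`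
some colour class is dense in a nonempty basic open set. -/
lemma baire {K : Set (ℕ → Bool)} (hK : IsClosed K) (B : Finset ℕ) (c : (ℕ → Bool) → ℕ)
    (hne : ∃ x ∈ K, Irr x = B) :
    ∃ k, ∃ u ∈ K, Irr u = B ∧ ∃ N₀, ∀ e ∈ K, Irr e = B → close B N₀ e u →
      ∀ N, ∃ e' ∈ K, Irr e' = B ∧ c e' = k ∧ close B N e' e := by
  by_contra hcon
  push Not at hcon
  -- one step
  have step : ∀ (k : ℕ) (p : {x // x ∈ K ∧ Irr x = B} × ℕ),
      ∃ q : {x // x ∈ K ∧ Irr x = B} × ℕ, p.2 < q.2 ∧ close B p.2 q.1.1 p.1.1 ∧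
        (∀ j ∈ B, ∃ t, p.2 ≤ t ∧ t < q.2 ∧ col t = j ∧ q.1.1 t = true) ∧
        ∀ e' ∈ K, Irr e' = B → close B q.2 e' q.1.1 → c e' ≠ k := by
    rintro k ⟨⟨u, huK, huB⟩, N₀⟩
    obtain ⟨e, heK, heB, heu, N, hN⟩ := hcon k u huK huB N₀
    obtain ⟨M, hM, hM'⟩ := exists_bound B N₀ e fun j hj => by
      have : j ∈ Irr e := by rw [heB]; exact hj
      exact this N₀
    refine ⟨(⟨e, heK, heB⟩, max M N), lt_of_lt_of_le hM (le_max_left _ _), heu, ?_, ?_⟩
    · intro j hj
      obtain ⟨t, h1, h2, h3⟩ := hM' j hj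
      exact ⟨t, h1, lt_of_lt_of_le h2 (le_max_left _ _), h3⟩
    · intro e' he' he'B hcl hc
      exact hN e' he' he'B hc (hcl.mono (le_max_right _ _))
  choose f hf1 hf2 hf3 hf4 using step
  obtain ⟨x0, hx0, hx0B⟩ := hne
  let s : ℕ → {x // x ∈ K ∧ Irr x = B} × ℕ := fun n =>
    Nat.rec (⟨x0, hx0, hx0B⟩, 0) (fun k p => f k p) n
  have hs : ∀ k, s (k + 1) = f k (s k) := fun k => rfl
  have hmono : StrictMono fun k => (s k).2 := by
    apply strictMono_nat_of_lt_succ
    intro k
    rw [hs]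
    exact hf1 k (s k)
  obtain ⟨x, hx⟩ := exists_lim (fun k => (s k).1.1) (fun k => (s k).2) hmono (by
    intro k
    show agr (s k).2 (s (k + 1)).1.1 (s k).1.1
    rw [hs]
    exact (hf2 k (s k)).1)
  have hsame : ∀ k l, close B (s k).2 (s (k + l)).1.1 (s k).1.1 := by
    intro k l
    induction l with
    | zero => exact close.refl _ _ _
    | succ l ih =>
      refine close.trans ?_ ih
      have := hf2 (k + l) (s (k + l))
      rw [← hs] at this
      exact this.mono (hmono.monotone (Nat.le_add_right k l))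
  have hclose : ∀ k, close B (s k).2 x (s k).1.1 := by
    intro k
    refine ⟨hx k, fun j hj hB t ht => ?_⟩
    have h1 : t < (s (k + (t + 1))).2 :=
      lt_of_lt_of_le (by omega : t < k + (t + 1)) (hmono.id_le _)
    rw [hx (k + (t + 1)) t h1]
    exact (hsame k (t + 1)).2 j hj hB t ht
  have hxK : x ∈ K := by
    apply mem_of_approx hK
    intro N
    exact ⟨(s N).1.1, (s N).1.2.1, ((hx N).mono (hmono.id_le N)).symm⟩
  have hxB : Irr x = B := by
    ext j
    constructor
    · intro hj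
      by_contra hjB
      have h1 : j < (s (j + 1)).2 :=
        lt_of_lt_of_le (Nat.lt_succ_self j) (hmono.id_le (j + 1))
      have h2 : j ∈ Irr (s (j + 1)).1.1 := ((hclose (j + 1)).2 j h1 hjB).irr.1 hj
      rw [(s (j + 1)).1.2.2] at h2
      exact hjB h2
    · intro hj M
      obtain ⟨t, h1, h2, h3, h4⟩ := hf3 M (s M) j hj
      rw [← hs] at h2 h4
      refine ⟨t, le_trans (hmono.id_le M) h1, h3, ?_⟩
      rw [hx (M + 1) t h2]
      exact h4
  have := hf4 (c x) (s (c x)) x hxK hxB (by rw [← hs]; exact hclose (c x + 1))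
  exact this rfl

end Pool.Agent.Q302.TF
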