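import Pool.Agent.Q302.TF.Core

/-!
# The shrinking step
-/

open Set

namespace Pool.Agent.Q302.TF

/-- the move coded by `i` -/
def dec (i : ℕ) : Finset ℕ × ℕ := (Encodable.decode (Nat.unpair i).1).getD (∅, 0)

lemma exists_code (F : Finset ℕ) (m N : ℕ) : ∃ i, N ≤ i ∧ dec i = (F, m) := by
  refine ⟨Nat.pair (Encodable.encode (F, m)) N, Nat.right_le_pair _ _, ?_⟩
  simp [dec, Nat.unpair_pair]

lemma eq_of_card {x : ℕ → Bool} {B : Finset ℕ} (h : Irr x ⊆ B) (h' : (Irr x).ncard = B.card) :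
    Irr x = B := by
  apply Set.eq_of_subset_of_ncard_le h
  rw [h', Set.ncard_coe_finset]

/-- The data of the fusion. -/
structure Fus (V : Set (ℕ → Bool)) (n : ℕ) (B' Z' : Finset ℕ)
    (g : List ℕ → (ℕ → Bool) × ℕ) : Prop where
  mem : ∀ s, (g s).1 ∈ V
  card : ∀ s i, (Irr (g (i :: s)).1).ncard = min (dec i).2 n
  agree : ∀ s i, agr ((g s).2 + i) (g (i :: s)).1 (g s).1
  keep : ∀ s i, ∀ j < (g s).2 + i, j ∉ (dec i).1 \ (B' ∪ Z') → j ∉ B' →
    same j (g (i :: s)).1 (g s).1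
  ones : ∀ s i, ∀ j, j ∈ (dec i).1 \ (B' ∪ Z') ∨ j ∈ B' →
    ∃ t, (g s).2 + i ≤ t ∧ t < (g (i :: s)).2 ∧ col t = j ∧ (g (i :: s)).1 t = true
  lt : ∀ s i, (g s).2 + i < (g (i :: s)).2

/-- The fusion exists. -/
lemma exists_fus {V : Set (ℕ → Bool)} {n N₀ : ℕ} {B' Z' : Finset ℕ} (hV : V.Nonempty)
    (hfree : ∀ d ∈ V, ∀ N, N₀ ≤ N → ∀ F : Finset ℕ, Disjoint F B' → Disjoint F Z' → ∀ m ≤ n,
      ∃ e ∈ V, (Irr e).ncard = m ∧ agr N e d ∧ (∀ j < N, j ∉ F → j ∉ B' → same j e d) ∧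
        ∀ j, j ∈ F ∨ j ∈ B' → one j N e) : ∃ g, Fus V n B' Z' g := by
  classical
  have step : ∀ (p : {p : (ℕ → Bool) × ℕ // p.1 ∈ V ∧ N₀ ≤ p.2}) (i : ℕ),
      ∃ q : {p : (ℕ → Bool) × ℕ // p.1 ∈ V ∧ N₀ ≤ p.2},
        (Irr q.1.1).ncard = min (dec i).2 n ∧ agr (p.1.2 + i) q.1.1 p.1.1 ∧
        (∀ j < p.1.2 + i, j ∉ (dec i).1 \ (B' ∪ Z') → j ∉ B' → same j q.1.1 p.1.1) ∧
        (∀ j, j ∈ (dec i).1 \ (B' ∪ Z') ∨ j ∈ B' →
          ∃ t, p.1.2 + i ≤ t ∧ t < q.1.2 ∧ col t = j ∧ q.1.1 t = true) ∧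
        p.1.2 + i < q.1.2 := by
    rintro ⟨⟨d, N⟩, hd, hN⟩ i
    simp only at hd hN ⊢
    obtain ⟨e, heV, h1, h2, h3, h4⟩ := hfree d hd (N + i) (by omega) ((dec i).1 \ (B' ∪ Z'))
      (Finset.disjoint_left.2 fun a ha hb => (Finset.mem_sdiff.1 ha).2
        (Finset.mem_union_left _ hb))
      (Finset.disjoint_left.2 fun a ha hb => (Finset.mem_sdiff.1 ha).2
        (Finset.mem_union_right _ hb)) (min (dec i).2 n) (min_le_right _ _)
    obtain ⟨M, hM, hM'⟩ := exists_bound ((dec i).1 \ (B' ∪ Z') ∪ B') (N + i) e fun j hj =>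
      h4 j (Finset.mem_union.1 hj)
    exact ⟨⟨(e, M), heV, by simp only; omega⟩, h1, h2, h3,
      fun j hj => hM' j (Finset.mem_union.2 hj), hM⟩
  choose f h1 h2 h3 h4 h5 using step
  obtain ⟨v, hv⟩ := hV
  let g : List ℕ → {p : (ℕ → Bool) × ℕ // p.1 ∈ V ∧ N₀ ≤ p.2} := fun s =>
    s.foldr (fun i p => f p i) ⟨(v, N₀), hv, le_refl _⟩
  have hg : ∀ i s, g (i :: s) = f (g s) i := fun i s => rfl
  refine ⟨fun s => (g s).1, ?_, ?_, ?_, ?_, ?_, ?_⟩
  · intro s; exact (g s).2.1
  · intro s i; simp only [hg]; exact h1 _ _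
  · intro s i; simp only [hg]; exact h2 _ _
  · intro s i; simp only [hg]; exact h3 _ _
  · intro s i; simp only [hg]; exact h4 _ _
  · intro s i; simp only [hg]; exact h5 _ _

section

variable {V : Set (ℕ → Bool)} {n : ℕ} {B' Z' : Finset ℕ} {g : List ℕ → (ℕ → Bool) × ℕ}

/-- the closure of the points of the fusion -/
def clos (g : List ℕ → (ℕ → Bool) × ℕ) : Set (ℕ → Bool) := {x | ∀ M, ∃ s, agr M (g s).1 x}

lemma mem_clos (s : List ℕ) : (g s).1 ∈ clos g := fun _ => ⟨s, agr.refl _ _⟩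

lemma clos_closed : IsClosed (clos g) := by
  apply closed_of_approx
  intro x hx M
  obtain ⟨y, hy, hyx⟩ := hx M
  obtain ⟨s, hs⟩ := hy M
  exact ⟨s, hs.trans hyx⟩

lemma Fus.desc (h : Fus V n B' Z' g) (s l : List ℕ) :
    agr (g s).2 (g (l ++ s)).1 (g s).1 ∧ (g s).2 ≤ (g (l ++ s)).2 := by
  induction l with
  | nil => exact ⟨agr.refl _ _, le_refl _⟩
  | cons i l ih =>
    have h1 := h.agree (l ++ s) i
    have h2 := h.lt (l ++ s) i
    refine ⟨(h1.mono (by omega)).trans ih.1, ?_⟩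
    show (g s).2 ≤ (g (i :: (l ++ s))).2
    omega

/-- The points of the closure are the points of the fusion and limits along infinite branches. -/
lemma Fus.struct (h : Fus V n B' Z' g) {x : ℕ → Bool} (hx : x ∈ clos g) :
    (∃ s, x = (g s).1) ∨ ∃ (σ : ℕ → List ℕ) (ι : ℕ → ℕ), (∀ k, σ (k + 1) = ι k :: σ k) ∧
      ∀ k, agr (g (σ k)).2 x (g (σ k)).1 := by
  classical
  by_cases hs : ∃ s, x = (g s).1
  · exact Or.inl hs
  right
  push Not at hs
  have step : ∀ p : {s : List ℕ // ∀ M, ∃ l, agr M (g (l ++ s)).1 x},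
      ∃ i : ℕ, ∀ M, ∃ l, agr M (g (l ++ i :: p.1)).1 x := by
    rintro ⟨s, hQ⟩
    simp only
    obtain ⟨t, ht⟩ : ∃ t, x t ≠ (g s).1 t := by
      by_contra hcon
      push Not at hcon
      exact hs s (funext hcon)
    by_contra hcon
    push Not at hcon
    choose M hM using hcon
    obtain ⟨l, hl⟩ := hQ (t + 1 + ∑ i ∈ Finset.range (t + 1), M i)
    rcases List.eq_nil_or_concat l with rfl | ⟨l', i, rfl⟩
    · exact ht (hl t (by omega)).symm
    · have e1 : (l'.concat i) ++ s = l' ++ i :: s := by simp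
      rw [e1] at hl
      rcases le_or_gt i t with hi | hi
      · refine hM i l' (hl.mono ?_)
        have := Finset.single_le_sum (f := M) (fun j _ => Nat.zero_le _)
          (Finset.mem_range.2 (by omega : i < t + 1))
        omega
      · have h1 := (h.desc (i :: s) l').1 t (by have := h.lt s i; omega)
        have h2 := h.agree s i t (by omega)
        have h3 := hl t (by omega)
        exact ht (by rw [← h3, h1, h2])
  choose ι hι using step
  have hQ0 : ∀ M, ∃ l, agr M (g (l ++ [])).1 x := by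
    intro M
    obtain ⟨s, hs⟩ := hx M
    exact ⟨s, by rw [List.append_nil]; exact hs⟩
  let σ : ℕ → {s : List ℕ // ∀ M, ∃ l, agr M (g (l ++ s)).1 x} := fun k =>
    Nat.rec ⟨[], hQ0⟩ (fun _ p => ⟨ι p :: p.1, hι p⟩) k
  refine ⟨fun k => (σ k).1, fun k => ι (σ k), fun k => rfl, fun k => ?_⟩
  obtain ⟨l, hl⟩ := (σ k).2 (g (σ k).1).2
  exact hl.symm.trans (h.desc _ _).1

/-- Data of a limit point. -/
structure Br (g : List ℕ → (ℕ → Bool) × ℕ) (σ : ℕ → List ℕ) (ι : ℕ → ℕ) (x : ℕ → Bool) :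
    Prop where
  suc : ∀ k, σ (k + 1) = ι k :: σ k
  agree : ∀ k, agr (g (σ k)).2 x (g (σ k)).1

lemma Br.le (h : Fus V n B' Z' g) {σ : ℕ → List ℕ} {ι : ℕ → ℕ} {x : ℕ → Bool}
    (hb : Br g σ ι x) (k : ℕ) : k ≤ (g (σ k)).2 := by
  induction k with
  | zero => exact Nat.zero_le _
  | succ k ih =>
    rw [hb.suc]
    have := h.lt (σ k) (ι k)
    omega

lemma Br.mem (h : Fus V n B' Z' g) {σ : ℕ → List ℕ} {ι : ℕ → ℕ} {x : ℕ → Bool}
    (hb : Br g σ ι x) : x ∈ clos g :=
  fun M => ⟨σ M, ((hb.agree M).mono (hb.le h M)).symm⟩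

/-- A column which is changed at the step `k` has a one. -/
lemma Br.hit (h : Fus V n B' Z' g) {σ : ℕ → List ℕ} {ι : ℕ → ℕ} {x : ℕ → Bool}
    (hb : Br g σ ι x) {j k : ℕ} (hj : j ∈ (dec (ι k)).1 \ (B' ∪ Z') ∨ j ∈ B') :
    ∃ t, (g (σ k)).2 + ι k ≤ t ∧ t < (g (σ (k + 1))).2 ∧ col t = j ∧ x t = true := by
  obtain ⟨t, h1, h2, h3, h4⟩ := h.ones (σ k) (ι k) j hj
  rw [← hb.suc] at h2 h4
  exact ⟨t, h1, h2, h3, by rw [hb.agree (k + 1) t h2]; exact h4⟩

lemma Br.sub (h : Fus V n B' Z' g) {σ : ℕ → List ℕ} {ι : ℕ → ℕ} {x : ℕ → Bool}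
    (hb : Br g σ ι x) : (B' : Set ℕ) ⊆ Irr x := by
  intro j hj M
  obtain ⟨t, h1, h2, h3, h4⟩ := hb.hit h (k := M) (Or.inr hj)
  have := hb.le h M
  exact ⟨t, by omega, h3, h4⟩

lemma Br.fixed (h : Fus V n B' Z' g) {σ : ℕ → List ℕ} {ι : ℕ → ℕ} {x : ℕ → Bool}
    (hb : Br g σ ι x) {j k : ℕ} (hjk : j < (g (σ k)).2) (hj : j ∉ B')
    (hF : ∀ l, j ∉ (dec (ι (k + l))).1 \ (B' ∪ Z')) : same j x (g (σ k)).1 := by
  have key : ∀ l, same j (g (σ (k + l))).1 (g (σ k)).1 ∧ j < (g (σ (k + l))).2 := by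
    intro l
    induction l with
    | zero => exact ⟨fun _ _ => rfl, hjk⟩
    | succ l ih =>
      have e1 : σ (k + (l + 1)) = ι (k + l) :: σ (k + l) := hb.suc (k + l)
      rw [e1]
      have hlt := h.lt (σ (k + l)) (ι (k + l))
      refine ⟨(h.keep (σ (k + l)) (ι (k + l)) j (by omega) (hF l) hj).trans ih.1, by omega⟩
  intro t ht
  have h1 := hb.le h (k + (t + 1))
  rw [hb.agree (k + (t + 1)) t (by omega)]
  exact (key (t + 1)).1 t ht

end

/-- **The shrinking step.** For every colouring, `K` contains a set `K'` of the next level in which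
all points with exactly `|B|` infinite columns have the same colour. -/
theorem step {K : Set (ℕ → Bool)} {B Z : Finset ℕ} (hI : Inv K B Z) (c : (ℕ → Bool) → ℕ) :
    ∃ (K' : Set (ℕ → Bool)) (B' Z' : Finset ℕ) (k : ℕ), K' ⊆ K ∧ Inv K' B' Z' ∧
      B'.card = B.card + 1 ∧ ∀ x ∈ K', ∀ F : Finset ℕ, Irr x = F → F.card = B.card → c x = k := by
  classical
  have hne : ∃ x ∈ K, Irr x = B := by
    obtain ⟨x, hx⟩ := hI.ne
    obtain ⟨d, hd, -, hdB⟩ := hI.dense x hx 0
    obtain ⟨e, he, heB, hec, -⟩ := hI.free d hd hdB 0 ∅ (Finset.disjoint_empty_left _)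
      (Finset.disjoint_empty_left _) B.card le_rfl
    exact ⟨e, he, eq_of_card heB hec⟩
  obtain ⟨k, u, huK, huB, N₀, hdense⟩ := baire hI.closed B c hne
  obtain ⟨b, hb⟩ := Infinite.exists_notMem_finset (B ∪ Z ∪ Finset.range N₀)
  simp only [Finset.mem_union, not_or] at hb
  obtain ⟨⟨hbB, hbZ⟩, hbN⟩ := hb
  set B' : Finset ℕ := insert b B with hB'
  set Z' : Finset ℕ := Z ∪ Finset.range N₀ with hZ'
  set V : Set (ℕ → Bool) := {d | d ∈ K ∧ Irr d ⊆ B ∧ close B N₀ d u ∧ (Irr d = B → c d = k)}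
    with hV
  have hVne : V.Nonempty := by
    obtain ⟨e, heK, heB, hek, hecl⟩ := hdense u huK huB (close.refl _ _ _) N₀
    exact ⟨e, heK, heB.subset, hecl, fun _ => hek⟩
  have hfree : ∀ d ∈ V, ∀ N, N₀ ≤ N → ∀ F : Finset ℕ, Disjoint F B' → Disjoint F Z' →
      ∀ m ≤ B.card, ∃ e ∈ V, (Irr e).ncard = m ∧ agr N e d ∧
        (∀ j < N, j ∉ F → j ∉ B' → same j e d) ∧ ∀ j, j ∈ F ∨ j ∈ B' → one j N e := by
    rintro d ⟨hdK, hdB, hdu, -⟩ N hN F hFB hFZ m hm
    have hF1 : Disjoint (insert b F) B := by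
      rw [Finset.disjoint_insert_left]
      exact ⟨hbB, Finset.disjoint_left.2 fun a ha hb' =>
        (Finset.disjoint_left.1 hFB ha) (Finset.mem_insert_of_mem hb')⟩
    have hF2 : Disjoint (insert b F) Z := by
      rw [Finset.disjoint_insert_left]
      exact ⟨hbZ, Finset.disjoint_left.2 fun a ha hb' =>
        (Finset.disjoint_left.1 hFZ ha) (Finset.mem_union_left _ hb')⟩
    obtain ⟨e, heK, heB, hem, h1, h2, h3⟩ := hI.free d hdK hdB N (insert b F) hF1 hF2 m hm
    have heu : close B N₀ e u := by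
      refine ⟨(h1.mono hN).trans hdu.1, fun j hj hjB => ?_⟩
      refine (h2 j (lt_of_lt_of_le hj hN) ?_ hjB).trans (hdu.2 j hj hjB)
      intro hjF
      rcases Finset.mem_insert.1 hjF with rfl | hjF
      · exact hbN (Finset.mem_range.2 hj)
      · exact Finset.disjoint_left.1 hFZ hjF (Finset.mem_union_right _ (Finset.mem_range.2 hj))
    have hins : ∀ j, j ∉ F → j ∉ B' → j ∉ insert b F ∧ j ∉ B := by
      intro j hjF hjB
      refine ⟨fun hj => ?_, fun hj => hjB (Finset.mem_insert_of_mem hj)⟩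
      rcases Finset.mem_insert.1 hj with rfl | hj
      · exact hjB (Finset.mem_insert_self _ _)
      · exact hjF hj
    have hone : ∀ j, j ∈ F ∨ j ∈ B' → j ∈ insert b F ∨ j ∈ B := by
      rintro j (hj | hj)
      · exact Or.inl (Finset.mem_insert_of_mem hj)
      · rcases Finset.mem_insert.1 hj with rfl | hj
        · exact Or.inl (Finset.mem_insert_self _ _)
        · exact Or.inr hj
    rcases lt_or_eq_of_le hm with hm' | hm'
    · refine ⟨e, ⟨heK, heB, heu, fun h => ?_⟩, hem, h1,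
        fun j hj hjF hjB => h2 j hj (hins j hjF hjB).1 (hins j hjF hjB).2,
        fun j hj => h3 j (hone j hj)⟩
      rw [h, Set.ncard_coe_finset] at hem
      omega
    · have heB' : Irr e = B := eq_of_card heB (by rw [hem, hm'])
      obtain ⟨M, hM, hM'⟩ := exists_bound (insert b F ∪ B) N e fun j hj =>
        h3 j (Finset.mem_union.1 hj)
      obtain ⟨e', he'K, he'B, hek, hecl⟩ := hdense e heK heB' heu M
      refine ⟨e', ⟨he'K, he'B.subset, ?_, fun _ => hek⟩, ?_, (hecl.1.mono hM.le).trans h1, ?_, ?_⟩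
      · exact (hecl.mono (by omega)).trans heu
      · rw [he'B, hm', Set.ncard_coe_finset]
      · intro j hj hjF hjB
        exact (hecl.2 j (by omega) (hins j hjF hjB).2).trans
          (h2 j hj (hins j hjF hjB).1 (hins j hjF hjB).2)
      · intro j hj
        obtain ⟨t, ht1, ht2, ht3, ht4⟩ := hM' j (Finset.mem_union.2 (hone j hj))
        exact ⟨t, ht1, ht3, by rw [hecl.1 t ht2]; exact ht4⟩
  obtain ⟨g, hg⟩ := exists_fus hVne hfree
  have hBB' : (B : Set ℕ) ⊆ B' := by
    intro j hj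
    exact Finset.mem_coe.2 (Finset.mem_insert_of_mem hj)
  have hcard : B'.card = B.card + 1 := Finset.card_insert_of_notMem hbB
  have hlow : ∀ s, Irr (g s).1 ⊆ B := fun s => (hg.mem s).2.1
  refine ⟨clos g, B', Z', k, ?_, ?_, hcard, ?_⟩
  · intro x hx
    apply mem_of_approx hI.closed
    intro N
    obtain ⟨s, hs⟩ := hx N
    exact ⟨_, (hg.mem s).1, hs⟩
  · refine ⟨clos_closed, ⟨_, mem_clos []⟩, ?_, ?_, ?_⟩
    · intro x hx
      rcases hg.struct hx with ⟨s, rfl⟩ | ⟨σ, ι, h1, h2⟩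
      · exact Or.inl ((hlow s).trans hBB')
      · exact Or.inr (Br.sub hg ⟨h1, h2⟩)
    · intro x hx N
      obtain ⟨s, hs⟩ := hx N
      exact ⟨_, mem_clos s, hs, (hlow s).trans hBB'⟩
    · intro d hd hdB N F hFB hFZ m hm
      -- reduction to a point of the fusion
      obtain ⟨s, hs1, hs2⟩ : ∃ s, agr N (g s).1 d ∧ ∀ j < N, j ∉ B' → same j (g s).1 d := by
        rcases hg.struct hd with ⟨s, rfl⟩ | ⟨σ, ι, h1, h2⟩
        · exact ⟨s, agr.refl _ _, fun _ _ _ _ _ => rfl⟩
        · have hbr : Br g σ ι d := ⟨h1, h2⟩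
          have hex : ∀ j, ∃ M, j ∉ B' → ¬ one j M d := by
            intro j
            by_cases hj : j ∈ B'
            · exact ⟨0, fun h => absurd hj h⟩
            · have : j ∉ Irr d := fun h => hj (hdB h)
              rw [mem_Irr] at this
              push Not at this
              obtain ⟨M, hM⟩ := this
              exact ⟨M, fun _ => hM⟩
          choose M hM using hex
          set k0 := N + ∑ j ∈ Finset.range N, M j with hk0
          have hk0' := hbr.le hg k0
          refine ⟨σ k0, ((h2 k0).mono (by omega)).symm, fun j hj hjB => ?_⟩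
          refine (hbr.fixed hg (by omega) hjB ?_).symm
          intro l hjl
          obtain ⟨t, ht1, -, ht3, ht4⟩ := hbr.hit hg (k := k0 + l) (Or.inl hjl)
          have := hbr.le hg (k0 + l)
          have hsum := Finset.single_le_sum (f := M) (fun j _ => Nat.zero_le _)
            (Finset.mem_range.2 hj)
          exact hM j hjB ⟨t, by omega, ht3, ht4⟩
      suffices hmain : ∃ e ∈ clos g, Irr e ⊆ B' ∧ (Irr e).ncard = m ∧ agr N e (g s).1 ∧
          (∀ j < N, j ∉ F → j ∉ B' → same j e (g s).1) ∧ ∀ j, j ∈ F ∨ j ∈ B' → one j N e by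
        obtain ⟨e, he1, he2, he3, he4, he5, he6⟩ := hmain
        exact ⟨e, he1, he2, he3, he4.trans hs1,
          fun j hj hjF hjB => (he5 j hj hjF hjB).trans (hs2 j hj hjB), he6⟩
      obtain ⟨i, hiN, hi⟩ := exists_code F m N
      have hsd : (dec i).1 \ (B' ∪ Z') = F := by
        rw [hi]
        apply Finset.sdiff_eq_self_of_disjoint
        rw [Finset.disjoint_union_right]
        exact ⟨hFB, hFZ⟩
      have ha := hg.agree s i
      have hk := hg.keep s i
      have ho := hg.ones s i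
      have hlt := hg.lt s i
      have hc := hg.card s i
      rw [hsd] at hk ho
      rw [hi] at hc
      rcases lt_or_eq_of_le hm with hm' | hm'
      · refine ⟨(g (i :: s)).1, mem_clos _, (hlow _).trans hBB', ?_, ha.mono (by omega), ?_, ?_⟩
        · rw [hc]
          simp only
          omega
        · intro j hj hjF hjB
          exact hk j (by omega) hjF hjB
        · intro j hj
          obtain ⟨t, h1, h2, h3, h4⟩ := ho j hj
          exact ⟨t, by omega, h3, h4⟩
      · obtain ⟨i0, -, hi0⟩ := exists_code ∅ 0 0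
        let σ : ℕ → List ℕ := fun q => List.replicate q i0 ++ i :: s
        have hσ : ∀ q, σ (q + 1) = i0 :: σ q := fun q => rfl
        obtain ⟨x, hx⟩ := exists_lim (fun q => (g (σ q)).1) (fun q => (g (σ q)).2)
          (strictMono_nat_of_lt_succ fun q => by
            rw [hσ]
            have := hg.lt (σ q) i0
            omega) (by
            intro q
            show agr (g (σ q)).2 (g (σ (q + 1))).1 (g (σ q)).1
            rw [hσ]
            exact (hg.agree (σ q) i0).mono (by omega))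
        have hbr : Br g σ (fun _ => i0) x := ⟨hσ, hx⟩
        have hnot : ∀ j l, j ∉ (dec ((fun _ : ℕ => i0) l)).1 \ (B' ∪ Z') := by
          intro j l
          simp only [hi0]
          simp
        have h0 : σ 0 = i :: s := rfl
        have hIrr : Irr x = B' := by
          apply Set.Subset.antisymm
          · intro j hj
            by_contra hjB
            have h1 := hbr.le hg (j + 1)
            have h2 : same j x (g (σ (j + 1))).1 :=
              hbr.fixed hg (by omega) hjB (fun l => hnot j l)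
            exact hjB (hBB' (hlow _ (h2.irr.1 hj)))
          · exact hbr.sub hg
        refine ⟨x, hbr.mem hg, hIrr.subset, ?_, ?_, ?_, ?_⟩
        · rw [hIrr, Set.ncard_coe_finset, hm']
        · have h1 := hx 0
          simp only [h0] at h1
          exact (h1.mono (by omega)).trans (ha.mono (by omega))
        · intro j hj hjF hjB
          have h1 : same j x (g (σ 0)).1 :=
            hbr.fixed hg (by rw [h0]; omega) hjB (fun l => hnot j l)
          rw [h0] at h1
          exact h1.trans (hk j (by omega) hjF hjB)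
        · intro j hj
          obtain ⟨t, h1, h2, h3, h4⟩ := ho j hj
          refine ⟨t, by omega, h3, ?_⟩
          have h5 := hx 0 t (by simp only [h0]; exact h2)
          simp only [h0] at h5
          rw [h5]
          exact h4
  · intro x hx F hxF hFc
    rcases hg.struct hx with ⟨s, rfl⟩ | ⟨σ, ι, h1, h2⟩
    · obtain ⟨-, h3, -, h4⟩ := hg.mem s
      apply h4
      apply eq_of_card h3
      rw [hxF, Set.ncard_coe_finset, hFc]
    · exfalso
      have h3 : (B' : Set ℕ) ⊆ F := by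
        rw [← hxF]
        exact Br.sub hg ⟨h1, h2⟩
      have h4 := Finset.card_le_card (Finset.coe_subset.1 h3)
      omega

end Pool.Agent.Q302.TF
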